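import Pool.Agent.Helper1.T1.Goals

/-!
# Project T1, packet CRVT: the equation of the curve
-/

set_option autoImplicit false

namespace Pool.Agent.Helper14.T1.CRVT

open MvPolynomial Finset

section

variable {K : Type} [Field K]

/-- The homogenisation of `p` in the variables `X_j`, `X_2`. -/
noncomputable def hm (j : Fin 3) (k : ℕ) (p : Polynomial K) : MvPolynomial (Fin 3) K :=
  ∑ i ∈ range (k + 1), C (p.coeff i) * X j ^ i * X 2 ^ (k - i)

theorem hm_hom (j : Fin 3) (k : ℕ) (p : Polynomial K) : (hm j k p).IsHomogeneous k := by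
  unfold hm
  refine IsHomogeneous.sum _ _ _ fun i hi => ?_
  have h1 : i ≤ k := Nat.lt_succ_iff.1 (mem_range.1 hi)
  have h2 : (C (p.coeff i) * X j ^ i * X 2 ^ (k - i) : MvPolynomial (Fin 3) K).IsHomogeneous
      (0 + 1 * i + 1 * (k - i)) :=
    ((isHomogeneous_C _ _).mul ((isHomogeneous_X _ _).pow i)).mul ((isHomogeneous_X _ _).pow _)
  have h3 : 0 + 1 * i + 1 * (k - i) = k := by omega
  rwa [h3] at h2

theorem hm_aeval {A : Type} [CommRing A] [Algebra K A] (j : Fin 3) (k : ℕ) (p : Polynomial K)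
    (hp : p.natDegree ≤ k) (v : Fin 3 → A) (hv : v 2 = 1) :
    aeval v (hm j k p) = Polynomial.aeval (v j) p := by
  unfold hm
  rw [map_sum, Polynomial.aeval_eq_sum_range' (Nat.lt_succ_of_le hp)]
  refine sum_congr rfl fun i _ => ?_
  simp only [map_mul, map_pow, aeval_X, algHom_C, hv, one_pow, mul_one]
  rw [Algebra.smul_def]

theorem hm_coeff_zero (k : ℕ) (p : Polynomial K) :
    coeff (Finsupp.single 0 k) (hm 0 k p) = p.coeff k := by
  unfold hm
  rw [coeff_sum, sum_range_succ]
  have h1 : ∀ i ∈ range k, coeff (Finsupp.single 0 k)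
      (C (p.coeff i) * X 0 ^ i * X 2 ^ (k - i) : MvPolynomial (Fin 3) K) = 0 := by
    intro i hi
    have hi' := mem_range.1 hi
    rw [X_pow_eq_monomial, X_pow_eq_monomial, mul_assoc, monomial_mul, coeff_C_mul, coeff_monomial,
      if_neg, mul_zero]
    intro h
    have h2 := DFunLike.congr_fun h (2 : Fin 3)
    rw [Finsupp.add_apply, Finsupp.single_eq_same, Finsupp.single_eq_of_ne (by decide),
      Finsupp.single_eq_of_ne (by decide)] at h2
    omega
  rw [sum_eq_zero h1, zero_add, Nat.sub_self, pow_zero, mul_one, X_pow_eq_monomial, coeff_C_mul,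
    coeff_monomial, if_pos rfl, mul_one]

theorem hm_coeff_one (k : ℕ) (hk : 1 ≤ k) (p : Polynomial K) :
    coeff (Finsupp.single 0 k) (hm 1 k p) = 0 := by
  unfold hm
  rw [coeff_sum]
  refine sum_eq_zero fun i _ => ?_
  rw [X_pow_eq_monomial, X_pow_eq_monomial, mul_assoc, monomial_mul, coeff_C_mul, coeff_monomial,
    if_neg, mul_zero]
  intro h
  have h2 := DFunLike.congr_fun h (0 : Fin 3)
  rw [Finsupp.add_apply, Finsupp.single_eq_same, Finsupp.single_eq_of_ne (by decide),
    Finsupp.single_eq_of_ne (by decide)] at h2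
  omega

theorem pd_zero {A : Type} [CommRing A] [Algebra K A] (k : ℕ) (p : Polynomial K)
    (hp : p.natDegree ≤ k) (v : Fin 3 → A) (hv : v 2 = 1) :
    aeval v (pderiv 0 (hm 0 k p)) = Polynomial.aeval (v 0) (Polynomial.derivative p) := by
  have h1 : Polynomial.derivative p =
      ∑ i ∈ range (k + 1), Polynomial.C (p.coeff i * i) * Polynomial.X ^ (i - 1) := by
    conv_lhs => rw [p.as_sum_range' (k + 1) (Nat.lt_succ_of_le hp)]
    rw [map_sum]
    refine sum_congr rfl fun i _ => ?_
    rw [Polynomial.derivative_monomial, Polynomial.C_mul_X_pow_eq_monomial]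
  rw [h1]
  unfold hm
  rw [map_sum, map_sum, map_sum]
  refine sum_congr rfl fun i _ => ?_
  have h2 : pderiv 0 (X 2 : MvPolynomial (Fin 3) K) = 0 := pderiv_X_of_ne (by decide)
  simp only [pderiv_mul, pderiv_C, pderiv_pow, pderiv_X_self, h2, map_mul, map_pow,
    aeval_X, algHom_C, hv, one_pow, mul_one, zero_mul, mul_zero, add_zero, zero_add,
    map_natCast, Polynomial.aeval_X, Polynomial.aeval_C, mul_assoc]

theorem pd_one (k : ℕ) (p : Polynomial K) :
    pderiv 0 (hm 1 k p) = 0 := by
  unfold hm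
  rw [map_sum]
  refine sum_eq_zero fun i _ => ?_
  have h2 : pderiv 0 (X 2 : MvPolynomial (Fin 3) K) = 0 := pderiv_X_of_ne (by decide)
  have h3 : pderiv 0 (X 1 : MvPolynomial (Fin 3) K) = 0 := pderiv_X_of_ne (by decide)
  simp only [pderiv_mul, pderiv_C, pderiv_pow, h2, h3, zero_mul, mul_zero, add_zero]

theorem dk (n : ℕ) : (Polynomial.dickson 1 (1 : K) (n + 1)).Monic ∧
    (Polynomial.dickson 1 (1 : K) (n + 1)).natDegree = n + 1 ∧
    (Polynomial.dickson 1 (1 : K) n).natDegree ≤ n := by
  induction n with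
  | zero =>
    rw [zero_add, Polynomial.dickson_one]
    refine ⟨Polynomial.monic_X, Polynomial.natDegree_X, ?_⟩
    rw [Polynomial.dickson_zero]
    have : (3 - ((1 : ℕ) : Polynomial K)) = Polynomial.C 2 := by
      rw [Nat.cast_one, map_ofNat]
      norm_num
    rw [this, Polynomial.natDegree_C]
  | succ n ih =>
    obtain ⟨h1, h2, h3⟩ := ih
    have h4 : (Polynomial.X * Polynomial.dickson 1 (1 : K) (n + 1)).Monic :=
      Polynomial.monic_X.mul h1
    have h5 : (Polynomial.X * Polynomial.dickson 1 (1 : K) (n + 1)).natDegree = n + 2 := by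
      rw [Polynomial.monic_X.natDegree_mul h1, Polynomial.natDegree_X, h2]
      omega
    have h6 : (Polynomial.C (1 : K) * Polynomial.dickson 1 (1 : K) n).natDegree <
        (Polynomial.X * Polynomial.dickson 1 (1 : K) (n + 1)).natDegree := by
      rw [h5, map_one, one_mul]
      omega
    have h7 := Polynomial.dickson_add_two 1 (1 : K) n
    refine ⟨?_, ?_, h2.le⟩
    · rw [h7]
      exact h4.sub_of_left (Polynomial.degree_lt_degree h6)
    · rw [h7, Polynomial.natDegree_sub_eq_left_of_natDegree_lt h6, h5]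

end

theorem t : Pool.Agent.Helper1.T1.S_CRVT := by
  intro K _ _ k t hk
  obtain ⟨m, rfl⟩ : ∃ m, k = m + 1 := ⟨k - 1, by omega⟩
  obtain ⟨h1, h2, h3⟩ := dk (K := K) m
  have hd : ∀ (A : Type) [CommRing A] [Algebra K A] (n : ℕ), Polynomial.dickson 1 (1 : A) n =
      Polynomial.map (algebraMap K A) (Polynomial.dickson 1 (1 : K) n) := by
    intro A _ _ n
    rw [Polynomial.map_dickson, map_one]
  refine ⟨hm 0 (m + 1) (Polynomial.dickson 1 (1 : K) (m + 1)) -
    hm 1 (m + 1) (Polynomial.dickson 1 (1 : K) m) - C t * X 2 ^ (m + 1), ?_, ?_, ?_⟩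
  · refine ((hm_hom _ _ _).sub (hm_hom _ _ _)).sub ?_
    have h4 := (isHomogeneous_C (Fin 3) t).mul ((isHomogeneous_X K (2 : Fin 3)).pow (m + 1))
    rwa [zero_add, one_mul] at h4
  · rw [coeff_sub, coeff_sub, hm_coeff_zero, hm_coeff_one _ (by omega), X_pow_eq_monomial,
      coeff_C_mul, coeff_monomial, if_neg, mul_zero, sub_zero, sub_zero]
    · have h4 : (Polynomial.dickson 1 (1 : K) (m + 1)).coeff (m + 1) = 1 := by
        have h5 := h1.coeff_natDegree
        rwa [h2] at h5
      exact h4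
    · intro h
      have h5 := DFunLike.congr_fun h (2 : Fin 3)
      rw [Finsupp.single_eq_same, Finsupp.single_eq_of_ne (by decide)] at h5
      omega
  · intro A _ _ x y
    have hv : (![x, y, 1] : Fin 3 → A) 2 = 1 := rfl
    have h0 : (![x, y, 1] : Fin 3 → A) 0 = x := rfl
    have h1' : (![x, y, 1] : Fin 3 → A) 1 = y := rfl
    constructor
    · rw [map_sub, map_sub, hm_aeval 0 _ _ h2.le _ hv, hm_aeval 1 _ _ (h3.trans (by omega)) _ hv,
        map_mul, map_pow, aeval_X, hv, one_pow, mul_one, algHom_C, h0, h1', hd A, hd A,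
        Polynomial.eval_map_algebraMap, Polynomial.eval_map_algebraMap, Nat.add_sub_cancel]
    · have h2' : pderiv 0 (X 2 : MvPolynomial (Fin 3) K) = 0 := pderiv_X_of_ne (by decide)
      have h4 : pderiv 0 (C t * X 2 ^ (m + 1) : MvPolynomial (Fin 3) K) = 0 := by
        simp only [pderiv_mul, pderiv_C, pderiv_pow, h2', zero_mul, mul_zero, add_zero]
      rw [map_sub, map_sub, h4, map_sub, pd_one, map_zero, sub_zero, sub_zero, pd_zero _ _ h2.le _ hv, h0, hd A,
        Polynomial.derivative_map, Polynomial.eval_map_algebraMap]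

end Pool.Agent.Helper14.T1.CRVT
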